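import Pool.Agent.SzAF.Main

/-!
# Small points on almost all members of every family of curves

Let `F` be a polynomial in `y` of degree `d ≥ 2` with coefficients in `ℤ[t_1, ..., t_r][x]` whose
leading coefficient is a nonzero `c ∈ ℤ[t]`. (After multiplying `y` by a polynomial in `x`, every
family of curves over an open subset of affine space has such a plane model.) Let `D ∈ ℤ[t][x]` be
nonzero, with coefficients of degree at most `δ` in `t`, and such that the discriminant of `F`
with respect to `y` divides `e(t) D^k` (for example, the discriminant itself, or `D = f` for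
`y^m = f_t(x)`). For `t ∈ ℤ^r` let `X_t` be the curve `F_t(x, y) = 0` over `ℚ`.

Let `P ∈ ℤ[t]` be irreducible of positive degree, `J ∈ ℤ[t]` not divisible by `P`, and `κ > δ`.
Then there are `A` and `η > 0` such that for all but at most `A T^(r - η)` of the `t` with
`|t_i| ≤ T` for which `F_t` is irreducible over `ℂ`, the curve `X_t` has a point, over some number
field, with stable Arakelov height at most `κ log N + C`, where `N` is the product of the primes
which divide `P(t)` and do not divide `J(t)`, and
`C = log L + (n + 1) log (n + 1) + 2 ψ(d) + 4 log 2`, `L` the sum of the absolute values of the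
coefficients of `D`, `n` the degree of `D` in `x`.

If `P = 0` is a divisor over whose generic point the stable reduction of the family is not smooth,
then for a suitable `J` all primes in `N` are places of bad reduction of `X_t`, over `ℚ` and all
its finite extensions.
-/

open Polynomial

namespace Pool.Agent.Results.MP_fe3691_nt.AllFamilies

open scoped Classical in
theorem result (r d δ : ℕ) (hd : 2 ≤ d) (F : (MvPolynomial (Fin r) ℤ)[X][X])
    (hFd : F.natDegree = d) (c : MvPolynomial (Fin r) ℤ) (hc : F.leadingCoeff = C c)
    (D : (MvPolynomial (Fin r) ℤ)[X]) (hD0 : D ≠ 0) (hδ : ∀ i, (D.coeff i).totalDegree ≤ δ)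
    (hram : ∃ e : MvPolynomial (Fin r) ℤ, e ≠ 0 ∧ ∃ k : ℕ, F.discr ∣ C e * D ^ k)
    (P J : MvPolynomial (Fin r) ℤ) (hP : Irreducible P) (hPd : 0 < P.totalDegree) (hPJ : ¬ P ∣ J)
    (κ : ℝ) (hκ : (δ : ℝ) < κ) :
    ∃ A η : ℝ, 0 < η ∧ ∀ T : ℕ, 1 ≤ T →
      (((SzFM.cube r T).filter (fun t => SzAF.Irred (SzAF.member F t) ∧
        ¬ SzAF.SmallPoint (SzAF.member F t)
          (κ * Real.log (SzAF.primePart (MvPolynomial.eval t P) (MvPolynomial.eval t J)) +
            (Real.log ((∑ i ∈ D.support, SzAF.len (D.coeff i) : ℕ) : ℝ) +
              ((D.natDegree + 1) * Real.log (D.natDegree + 1) + 2 * Chebyshev.psi d +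
                4 * Real.log 2))))).card : ℝ) ≤ A * (T : ℝ) ^ ((r : ℝ) - η) :=
  SzAF.main r d δ hd F hFd c hc D hD0 hδ hram P J hP hPd hPJ κ hκ

end Pool.Agent.Results.MP_fe3691_nt.AllFamilies
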