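import Pool.Agent.SzAF.Fam

/-!
# Small points on almost all members of every family of cyclic covers y^m = F_t(x,1)

Let `m | N`, `g = (m-1)(N-2)/2 ≥ 2`, and let `F = sum a_i x^i z^(N-i)` be a binary form of degree
`N` whose coefficients are arbitrary polynomials in `t_1, ..., t_r` with integral coefficients, of
degree at most `w`, with `a_N` and the discriminant not identically zero. For `t` in `Z^r` let
`X_t` be the curve `y^m = F_t(x,1)` of genus `g`; for `m = 2` these are arbitrary families of
hyperelliptic curves of genus `N/2 - 1`.

Assume that some absolute invariant `I(F)^(2N-2) / disc(F)^(deg I)` of the family is not a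
polynomial in `t`. (If the family is defined over projective space, that is, if the `a_i` are
forms of the same degree, this only excludes that all absolute invariants are constant.) Then for
every `κ > w`, for all but at most `A T^(r - η)` of the `t` in `Z^r` with `|t_i| ≤ T`, the curve
`X_t` has a point over some number field with stable Arakelov height at most `κ log M(t) + C`,
`C = log L + (N + 1) log (N + 1) + 2 ψ(m) + 4 log 2`, `L` the sum of the absolute values of the
coefficients of all `a_i`, where `M(t)` is a product of different places of bad reduction of `X_t`: the primes `p` not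
dividing `m` such that `F_t` is not equivalent over `C_p` to a form with integral coefficients and
unit discriminant.

The definitions are in `Pool.Agent.ALC.Defs` (the height, with the explanation why it is the
stable Arakelov height), `Pool.Agent.SzAF.Defs` and `Pool.Agent.SzFM.Defs`.
-/

open Polynomial

namespace Pool.Agent.Results.MP_fe3691_nt.EveryFamily

open scoped Classical in
theorem result (m N r w : ℕ) (hmN : m ∣ N) (hg : 2 ≤ SzBF.genus m N)
    (a : Fin (N + 1) → MvPolynomial (Fin r) ℤ) (hw : ∀ i, (a i).totalDegree ≤ w)
    (haN : a (Fin.last N) ≠ 0) (hD : (SzBF.form N a).discr ≠ 0) (ha : SzFM.Moves a)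
    (κ : ℝ) (hκ : (w : ℝ) < κ) :
    ∃ A η : ℝ, 0 < η ∧ ∀ T : ℕ, 1 ≤ T →
      (((SzFM.cube r T).filter (fun t => ¬ ((SzBF.form N (SzFM.val a t)).natDegree = N ∧
        (SzBF.form N (SzFM.val a t)).discr ≠ 0 ∧
        SzAF.SmallPoint (SzAF.superEqn m (SzBF.form N (SzFM.val a t)))
          (κ * Real.log (SzFM.badPart m N (SzFM.val a t)) +
            (Real.log ((∑ i, SzAF.len (a i) : ℕ) : ℝ) +
              ((N + 1) * Real.log (N + 1) + 2 * Chebyshev.psi m + 4 * Real.log 2)))))).card : ℝ)
        ≤ A * (T : ℝ) ^ ((r : ℝ) - η) :=
  SzAF.every_super m N r w hmN hg a hw haN hD ha κ hκ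

end Pool.Agent.Results.MP_fe3691_nt.EveryFamily
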