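import Pool.Agent.SzPl.Expl

/-!
# Small points on almost all members of every family of plane curves with a nodal member

A plane curve of degree `d ≥ 4` over `ℚ` is given by a homogeneous polynomial `G(x, y, z)` with
integral coefficients, `dehom G = G(x, y, 1)`. `SzAF.SmallPoint (dehom G) B` says that the curve
`G = 0` has a point over a number field with stable Arakelov height at most `B` (see
`Pool.Agent.SzAF.Defs` and, for the height, `Pool.Agent.ALC.Defs`); the existence of the orthonormal
bases and of the Arakelov Green functions is included. If `NodalAt G p` holds then the reduction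
modulo `p` is a stable curve with a node, so `p` is a place of bad reduction of the curve, also
after any extension.

Let `G_t = 0`, `t` in `ℤ^r`, be a family of plane curves of degree `d`, the coefficients
polynomials in `t` of degree at most `w` and with the sum of the absolute values of their
coefficients at most `L`, that of `y^d` not identically zero, with one smooth member and one nodal
member over `ℂ`. Then for every `κ > (2d-2) w`, for all but at most `A T^(r-η)` of the `t` with
`|t_i| ≤ T`, the curve `G_t = 0` is smooth and has a point of stable Arakelov height at most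
`κ log N + (2d-2) log L + 8 d^2 log d` for a product `N` of different primes of nodal reduction.

The hypotheses hold, with `w = 1`, `L = 1` and `r = (d+1)(d+2)/2`, for the family of all plane
curves of degree `d`: the curve `x^d + y^d + z^d = 0` is smooth and `x^d + y^d + x y z^(d-2) = 0`
is nodal (`SzPl.full_expl` in `Pool.Agent.SzPl.Expl`). So almost all plane curves of every degree
`d ≥ 4` satisfy the conjecture, with the bound `κ log N_S + 8 d^2 log d`, `κ > 2d-2`, `N_S` the
product of the primes of bad reduction.
-/

open MvPolynomial SzPl

namespace Pool.Agent.Results.MP_fe3691_nt.PlaneCurves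

open scoped Classical in
theorem result (r d w L : ℕ) (hd : 4 ≤ d)
    (G : MvPolynomial (Fin 3) (MvPolynomial (Fin r) ℤ)) (hG : G.IsHomogeneous d)
    (hw : ∀ s, (G.coeff s).totalDegree ≤ w) (hL : ∀ s, SzAF.len (G.coeff s) ≤ L)
    (hc : G.coeff (Finsupp.single 1 d) ≠ 0)
    (t₀ t₁ : Fin r → ℂ) (h1 : ∀ v : Fin 3 → ℂ, ¬ IsSing (member G t₁) v)
    (h0 : IsNodal (member G t₀)) (κ : ℝ) (hκ : ((2 * d - 2 : ℕ) : ℝ) * w < κ) :
    ∃ A η : ℝ, 0 < η ∧ ∀ T : ℕ, 1 ≤ T →
      (((SzFM.cube r T).filter (fun t => ¬ SzpiroPt (member G t) κ
        (((2 * d - 2 : ℕ) : ℝ) * Real.log L + 8 * (d : ℝ) ^ 2 * Real.log d))).card : ℝ) ≤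
        A * (T : ℝ) ^ ((r : ℝ) - η) :=
  family_expl r d w L hd G hG hw hL hc t₀ t₁ h1 h0 κ hκ

end Pool.Agent.Results.MP_fe3691_nt.PlaneCurves
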